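import Mathlib
import Pool.Agent.ECF.BASE
import Pool.Agent.ECF.PG
import Pool.Agent.ECF.RED
import Pool.Agent.ECF.KFIX
import Pool.Agent.ECF.KTR
import Pool.Agent.ECF.K16
import Pool.Agent.ECF.K8
import Pool.Agent.ECF.EXC
import Pool.Agent.ECF.CLSA
import Pool.Agent.ECF.CLSB
import Pool.Agent.ECF.LIREL
import Pool.Agent.ECF.CYCQ
import Pool.Agent.ECF.DSD
import Pool.Agent.ECF.SUB
import Pool.Agent.ECF.NP
import Pool.Agent.ECF.SYL8
import Pool.Agent.ECF.FLDA
import Pool.Agent.ECF.FLDB

set_option autoImplicit false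

/-!
# Nondegenerate CM types of every CM field
-/

namespace Pool.Agent.Results.MP_90d181_ag.EveryCMField

open NumberField Module Pool.Agent.ECF
open Pool.Agent.CMT (QBar IsCMType TateByDivisors)
open Pool.Agent.CMTP (NotInduced)

/-- **Every CM field.** Let `K` be a CM field.
(a) If `K` is Galois over `ℚ` with a Galois group which is a Klein four group or a dihedral group of
order eight, then every CM type of `K` is induced from a proper subfield.
(b) Otherwise `K` has a CM type which is not induced from a proper subfield, for which every Tate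
weight on every power is a disjoint union of Tate weights of codimension one, and for which all
Tate classes on all powers of every abelian variety over a number field with one ordinary
reduction of type `(K, Φ)` are polynomials in Tate classes of codimension one.
(c) If moreover `[K : ℚ] / 2` is a power of a prime number, then at least half of all CM types of
`K` have these three properties. -/
theorem result (K : Type) [Field K] [NumberField K] [IsCMField K] :
    ((IsGalois ℚ K ∧ (IsKleinFour Gal(K/ℚ) ∨ Nonempty (Gal(K/ℚ) ≃* DihedralGroup 4))) →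
      ∀ Φ : Finset (K →+* QBar), IsCMType K Φ → ¬ NotInduced Φ) ∧
    (¬ (IsGalois ℚ K ∧ (IsKleinFour Gal(K/ℚ) ∨ Nonempty (Gal(K/ℚ) ≃* DihedralGroup 4))) →
      (∃ Φ : Finset (K →+* QBar), IsCMType K Φ ∧
        (NotInduced Φ ∧ TateByDivisors Φ ∧ ForcesTate Φ)) ∧
      ∀ p n : ℕ, p.Prime → finrank ℚ K = 2 * p ^ n →
        2 * Nat.card {Φ : Finset (K →+* QBar) // IsCMType K Φ ∧
            ¬ (NotInduced Φ ∧ TateByDivisors Φ ∧ ForcesTate Φ)} ≤
          Nat.card {Φ : Finset (K →+* QBar) // IsCMType K Φ}) := by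
  have h1 := p_FIXV
  have h2 := p_SUM2
  have h4 := p_SUM4
  have hB := p_CARDB
  have hPG : T_PG := p_PG h4 (p_KFIX h1 h2) (p_KTR h1 h4 hB) (p_K16 h1 h4 hB) p_K8 p_EXC4 p_EXC8
    p_CLSA p_CLSB (p_CYC p_LI) (p_QUAT p_LI p_REL) (p_DSD p_LI p_REL)
  have hNP : T_NP := p_NP p_TYPE (p_SUB p_TYPE h2)
  exact p_FIN2 p_FLDA p_FLDB p_CONJ hPG (p_P2 hPG p_SYL8) hNP K _ fun Φ hΦ h =>
    ⟨Pool.Agent.CMTP.notInduced_of_ndeg hΦ h, Pool.Agent.CMTP.tateByDivisors_of_ndeg hΦ h,
      forcesTate_of_ndeg hΦ h⟩

end Pool.Agent.Results.MP_90d181_ag.EveryCMField
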