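import Mathlib
import Pool.Agent.OneRed.CorOrd

set_option autoImplicit false

/-!
# One ordinary reduction: Tate classes on all abelian varieties with a typical ordinary reduction
-/

namespace Pool.Agent.Results.MP_90d181_ag.OneOrdinaryReduction

open NumberField Module Pool.Agent.OneRed
open Pool.Agent.CMT (QBar IsCMType)

/-- **One ordinary reduction.** There is an absolute constant `c > 0` such that for all families
`K j` of CM fields (no condition, repetitions allowed) of degrees at least `2 g`, with the sum of
the degrees `N`, and all `i ≥ 1` with `i (1 + log N) ^ 4 ≤ c g`: all but a proportion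
`exp (- c g / (i (1 + log N)))` of the tuples of CM types `Φ j` of the `K j` are good: for every
abelian variety over every number field which has at one place an ordinary reduction of type
`(K j, Φ j)`, every Tate class of codimension at most `i` on every power is a combination of
products of Tate classes of codimension one; and, if `i ≥ 2`, so is every Tate class of
codimension `j` (any `j`) if no nonzero totally isotropic subspace of the Tate module of dimension
at most `2 j` is stable under an open subgroup of the Galois group. -/
theorem result : ∃ c : ℝ, 0 < c ∧ ∀ (r : ℕ) (K : Fin r → Type) [∀ j, Field (K j)]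
    [∀ j, NumberField (K j)] [∀ j, IsCMField (K j)] (g i : ℕ), 1 ≤ i →
    (∀ j, 2 * g ≤ finrank ℚ (K j)) →
    i * (1 + Real.log (∑ j, finrank ℚ (K j) : ℕ)) ^ 4 ≤ c * g →
    (Nat.card {Φ : ∀ j, Finset (K j →+* QBar) // (∀ j, IsCMType (K j) (Φ j)) ∧
        ¬ GoodTypes i Φ} : ℝ) ≤
      Real.exp (-(c * g / (i * (1 + Real.log (∑ j, finrank ℚ (K j) : ℕ))))) *
        Nat.card {Φ : ∀ j, Finset (K j →+* QBar) // ∀ j, IsCMType (K j) (Φ j)} :=
  card_low

end Pool.Agent.Results.MP_90d181_ag.OneOrdinaryReduction
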