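import Mathlib
import Pool.Agent.OneRed.Main
import Pool.Agent.OneRed.Classes

set_option autoImplicit false

/-!
# Tate classes on all powers of an abelian variety from one Frobenius element
-/

namespace Pool.Agent.Results.MP_90d181_ag.OneReduction

open Module Pool.Agent.OneRed

/-- **One reduction.** Let `V` be a representation of a group `Γ` over a field `F` of
characteristic `0`, with a nondegenerate alternating form which is invariant up to the character
`χ` (for instance the Tate module of an abelian variety `A` over a number field). Suppose that one
element `φ` of `Γ` has a basis of eigenvectors `b s` whose eigenvalues `α s` satisfy no nontrivial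
multiplicative relation of length at most `4` and no relation of Weil type of length at most `2 i`.
Then for all `r` and all `j ≤ i` the Tate classes of codimension `j` in the exterior algebra
`Λ^* ((V ^ r)^*)` (the cohomology ring of `A ^ r`) are linear combinations of products of Tate
classes of codimension one. -/
theorem result (F V Γ S : Type*) [Field F] [CharZero F] [AddCommGroup V] [Module F V] [Group Γ]
    [Fintype S] [DecidableEq S] (D : Rep F V Γ) (b : Basis S F V) (α : S → F) (φ : Γ)
    (hφ : ∀ s, D.ρ φ (b s) = α s • b s) (h : NoRelation α (D.χ φ : F) 2)
    (i : ℕ) (hW : D.NoWeilRelation b α (D.χ φ : F) i) (r j : ℕ) (hj : j ≤ i)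
    (x : HH F V r) (hx : D.TateClass r j x) : D.ByDivisors r x :=
  (byDivisors_iff D r x).2 (main_C D b α φ hφ h hW hj ((tateClass_iff D r j x).1 hx))

end Pool.Agent.Results.MP_90d181_ag.OneReduction
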