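import Mathlib
import Pool.Agent.OneRed.Lifts

set_option autoImplicit false

/-!
# Abelian varieties over number fields with one typical reduction

Fix `q ≥ 2`. There is `c > 0` such that, for all large `g`, for all but a proportion `exp (-c g)` of
the real Weil polynomials `h` of degree `g` for `q` (if `q` is a prime: of the isogeny classes of
abelian varieties of dimension `g` over the field with `q` elements) every abelian variety over
every number field which has a reduction in this class at one place has the following property: all
Tate classes, of all codimensions on all powers, are combinations of products of divisor classes.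
For all CM fields `K` which contain a root of `h`, the same is true, in codimensions less than
`g / 2`, for all abelian varieties such that the Frobenius of one reduction is a Weil number all of
whose powers generate `K`, and in all codimensions if there is no factor of type IV or the Weil
number is not balanced over an imaginary quadratic subfield.
-/

namespace Pool.Agent.Results.MP_90d181_ag.RandomReduction

open Polynomial
open Pool.Agent.AWP (poly IsRealWeil weil)
open Pool.Agent.OneRed
open Pool.Agent.OneRed.Rnd

/-- **Abelian varieties over number fields with one typical reduction.** -/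
theorem result : ∀ q : ℕ, 2 ≤ q → ∃ c : ℝ, 0 < c ∧ ∃ g₀ : ℕ, ∀ g : ℕ, g₀ ≤ g →
    {b : Fin g → ℤ | IsRealWeil q b}.Finite ∧ 0 < {b : Fin g → ℤ | IsRealWeil q b}.ncard ∧
    (({b : Fin g → ℤ | IsRealWeil q b ∧
      ¬ (Irreducible (weil q b) ∧ AllLifts q (weil q b) ∧ AllLiftsCM b)}.ncard : ℕ) : ℝ) ≤
      Real.exp (-(c * g)) * ({b : Fin g → ℤ | IsRealWeil q b}.ncard : ℕ) := by
  intro q hq
  obtain ⟨c, hc, g₀, h⟩ := stat q hq
  refine ⟨c, hc, max g₀ 5, fun g hg => ?_⟩
  obtain ⟨h1, h2, h3⟩ := h g (le_trans (le_max_left _ _) hg)
  refine ⟨h1, h2, le_trans ?_ h3⟩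
  norm_cast
  refine Set.ncard_le_ncard ?_ (h1.subset fun b hb => hb.1)
  rintro b ⟨hb, hn⟩
  refine ⟨hb, fun hL => hn ⟨hL.2.1, allLifts_of (by omega) hL.2.1 hL.2.2, ?_⟩⟩
  refine allLiftsCM_of (le_trans (le_max_right _ _) hg) (q_WC2 g b hL.1 fun z hz => ?_)
  obtain ⟨y, hy, -⟩ := hb z hz
  exact ⟨y, hy⟩

end Pool.Agent.Results.MP_90d181_ag.RandomReduction
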